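import Pool.Agent.Helper49.TX.Mom

/-!
# NRS: lower bounds for the moments of the real part of a sum over primes
-/

set_option autoImplicit false
open MeasureTheory Set Filter Topology
open Pool.Agent.Helper57.TX
open Pool.Agent.Helper49.TX (fiber_card ak DP_pow cpow_cs)

namespace Pool.Agent.Helper49.NRS

/-- a Dirichlet polynomial with real coefficients -/
noncomputable def Po (N : ℕ) (α : ℕ → ℝ) (t : ℝ) : ℂ :=
  ∑ n ∈ Finset.range (N + 1), (α n : ℂ) * (n : ℂ) ^ (-((1 / 2 : ℂ) + (t : ℂ) * Complex.I))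

lemma Po_cs {N : ℕ} {α : ℕ → ℝ} (h0 : α 0 = 0) (t : ℝ) : Po N α t =
    ((∑ n ∈ Finset.range (N + 1), α n / √n * Real.cos (Real.log n * t) : ℝ) : ℂ) -
      ((∑ n ∈ Finset.range (N + 1), α n / √n * Real.sin (Real.log n * t) : ℝ) : ℂ) * Complex.I := by
  unfold Po
  push_cast
  rw [Finset.sum_mul, ← Finset.sum_sub_distrib]
  refine Finset.sum_congr rfl fun n _ => ?_
  rcases Nat.eq_zero_or_pos n with h | h
  · subst h
    rw [h0]
    simp
  · rw [cpow_cs h]
    push_cast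
    ring

lemma Po_mul {N : ℕ} {α β : ℕ → ℝ} (h0 : α 0 = 0) (h1 : β 0 = 0) (t : ℝ) :
    (Po N α t * (starRingEnd ℂ) (Po N β t)).re = ∑ m ∈ Finset.range (N + 1), ∑ n ∈ Finset.range (N + 1),
      α m / √m * (β n / √n) * Real.cos ((Real.log m - Real.log n) * t) := by
  rw [Po_cs h0, Po_cs h1]
  have e : ∀ a b c d : ℝ, (((a : ℂ) - (b : ℂ) * Complex.I) * (starRingEnd ℂ) ((c : ℂ) - (d : ℂ) * Complex.I)).re =
      a * c + b * d := by
    intro a b c d
    simp [Complex.mul_re, Complex.sub_re, Complex.sub_im]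
  rw [e, Finset.sum_mul_sum, Finset.sum_mul_sum, ← Finset.sum_add_distrib]
  refine Finset.sum_congr rfl fun m _ => ?_
  rw [← Finset.sum_add_distrib]
  refine Finset.sum_congr rfl fun n _ => ?_
  rw [sub_mul, Real.cos_sub]
  ring

lemma log_gap {N m n : ℕ} (hm : 1 ≤ m) (hn : 1 ≤ n) (hmN : m ≤ N) (hnN : n ≤ N) (h : m ≠ n) :
    1 / (N : ℝ) ≤ |Real.log m - Real.log n| := by
  have key : ∀ a b : ℕ, 1 ≤ a → a < b → b ≤ N → 1 / (N : ℝ) ≤ Real.log b - Real.log a := by
    intro a b ha hab hb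
    have ha0 : (0:ℝ) < a := by exact_mod_cast ha
    have hb0 : (0:ℝ) < b := by
      have : (a:ℝ) < b := by exact_mod_cast hab
      linarith
    have hab' : (a:ℝ) + 1 ≤ b := by exact_mod_cast hab
    have hbN : (b:ℝ) ≤ N := by exact_mod_cast hb
    rw [← Real.log_div hb0.ne' ha0.ne']
    have h1 := Real.one_sub_inv_le_log_of_pos (show 0 < (b:ℝ) / a by positivity)
    refine le_trans ?_ h1
    rw [inv_div]
    have h2 : 1 - (a:ℝ) / b = (b - a) / b := by field_simp
    rw [h2, div_le_div_iff₀ (by linarith) hb0]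
    nlinarith
  rcases lt_or_gt_of_ne h with h' | h'
  · have := key m n hm h' hnN
    rw [abs_sub_comm]
    exact this.trans (le_abs_self _)
  · exact (key n m hn h' hmN).trans (le_abs_self _)

lemma int_cos_le {c : ℝ} (hc : c ≠ 0) (a b : ℝ) : |∫ t in a..b, Real.cos (c * t)| ≤ 2 / |c| := by
  rw [intervalIntegral.integral_comp_mul_left (fun t => Real.cos t) hc, integral_cos, smul_eq_mul, abs_mul, abs_inv,
    inv_mul_eq_div]
  apply div_le_div_of_nonneg_right _ (abs_nonneg _)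
  rw [abs_le]
  have h1 := Real.neg_one_le_sin (c * b)
  have h2 := Real.sin_le_one (c * b)
  have h3 := Real.neg_one_le_sin (c * a)
  have h4 := Real.sin_le_one (c * a)
  constructor <;> linarith

/-- mean of a product of two polynomials -/
theorem mean_mul {N : ℕ} (hN : 1 ≤ N) {α β : ℕ → ℝ} (h0 : α 0 = 0) (h1 : β 0 = 0) (a b : ℝ) :
    |(∫ t in a..b, (Po N α t * (starRingEnd ℂ) (Po N β t)).re) - (b - a) * ∑ n ∈ Finset.range (N + 1), α n * β n / n| ≤
      2 * N * ((∑ n ∈ Finset.range (N + 1), |α n| / √n) * ∑ n ∈ Finset.range (N + 1), |β n| / √n) := by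
  have hN0 : (0:ℝ) < N := by exact_mod_cast hN
  obtain ⟨K, hK⟩ : ∃ K : ℕ → ℕ → ℝ, K = fun m n : ℕ => ∫ t in a..b, Real.cos ((Real.log m - Real.log n) * t) := ⟨_, rfl⟩
  have e1 : (∫ t in a..b, (Po N α t * (starRingEnd ℂ) (Po N β t)).re) =
      ∑ m ∈ Finset.range (N + 1), ∑ n ∈ Finset.range (N + 1), α m / √m * (β n / √n) * K m n := by
    simp_rw [Po_mul h0 h1]
    rw [intervalIntegral.integral_finsetSum]
    · refine Finset.sum_congr rfl fun m _ => ?_
      rw [intervalIntegral.integral_finsetSum]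
      · refine Finset.sum_congr rfl fun n _ => ?_
        rw [intervalIntegral.integral_const_mul, hK]
      · intro n _
        apply Continuous.intervalIntegrable
        fun_prop
    · intro m _
      apply Continuous.intervalIntegrable
      fun_prop
  have e2 : (b - a) * ∑ n ∈ Finset.range (N + 1), α n * β n / n =
      ∑ m ∈ Finset.range (N + 1), ∑ n ∈ Finset.range (N + 1), if m = n then α m / √m * (β n / √n) * (b - a) else 0 := by
    rw [Finset.mul_sum]
    refine Finset.sum_congr rfl fun m hm => ?_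
    rw [Finset.sum_ite_eq, if_pos hm]
    rcases Nat.eq_zero_or_pos m with h | h
    · subst h
      rw [h0]
      simp
    · have hm0 : (0:ℝ) < m := by exact_mod_cast h
      have hs : √(m:ℝ) * √m = m := Real.mul_self_sqrt hm0.le
      rw [div_mul_div_comm, hs]
      ring
  rw [e1, e2, ← Finset.sum_sub_distrib, Finset.sum_mul_sum, Finset.mul_sum]
  refine (Finset.abs_sum_le_sum_abs _ _).trans (Finset.sum_le_sum fun m hm => ?_)
  rw [← Finset.sum_sub_distrib, Finset.mul_sum]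
  refine (Finset.abs_sum_le_sum_abs _ _).trans (Finset.sum_le_sum fun n hn => ?_)
  rw [Finset.mem_range] at hm hn
  have hnn : 0 ≤ 2 * (N:ℝ) * (|α m| / √m * (|β n| / √n)) := by positivity
  by_cases hmn : m = n
  · rw [if_pos hmn]
    have : K m n = b - a := by
      rw [hK, hmn]
      simp
    rw [this, sub_self, abs_zero]
    exact hnn
  · rw [if_neg hmn, sub_zero]
    rcases Nat.eq_zero_or_pos m with h | h
    · subst h
      rw [h0]
      simp
    rcases Nat.eq_zero_or_pos n with h' | h'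
    · subst h'
      rw [h1]
      simp
    have hg := log_gap h h' (by omega : m ≤ N) (by omega) hmn
    have hc : Real.log m - Real.log n ≠ 0 := by
      intro h2
      rw [h2, abs_zero] at hg
      have : 0 < 1 / (N:ℝ) := by positivity
      linarith
    have hKb : |K m n| ≤ 2 * N := by
      rw [hK]
      refine (int_cos_le hc a b).trans ?_
      rw [div_le_iff₀ (abs_pos.2 hc)]
      rw [div_le_iff₀ hN0] at hg
      nlinarith
    rw [abs_mul, abs_mul, abs_div, abs_div, abs_of_nonneg (Real.sqrt_nonneg _), abs_of_nonneg (Real.sqrt_nonneg _)]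
    calc |α m| / √m * (|β n| / √n) * |K m n| ≤ |α m| / √m * (|β n| / √n) * (2 * N) := by gcongr
      _ = _ := by ring

/-! ### the coefficients of the powers -/

lemma fin_prod_pos {Q : Finset ℕ} (hQ : ∀ p ∈ Q, p.Prime) {k : ℕ} {f : Fin k → ℕ}
    (hf : f ∈ Fintype.piFinset fun _ : Fin k => Q) : 0 < ∏ i, f i := by
  rw [Fintype.mem_piFinset] at hf
  exact Finset.prod_pos fun i _ => (hQ _ (hf i)).pos

lemma ak_zero {Q : Finset ℕ} (hQ : ∀ p ∈ Q, p.Prime) (r : ℕ → ℝ) (k : ℕ) : ak Q r k 0 = 0 := by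
  unfold ak
  rw [Finset.filter_eq_empty_iff.2, Finset.sum_empty]
  intro f hf h3
  have := fin_prod_pos hQ hf
  omega

lemma fin_perm {Q : Finset ℕ} (hQ : ∀ p ∈ Q, p.Prime) {k n : ℕ} {f : Fin k → ℕ}
    (hf : f ∈ (Fintype.piFinset fun _ : Fin k => Q).filter (fun f => ∏ i, f i = n)) :
    (List.ofFn f).Perm n.primeFactorsList := by
  rw [Finset.mem_filter, Fintype.mem_piFinset] at hf
  apply Nat.primeFactorsList_unique
  · rw [List.prod_ofFn]
    exact hf.2
  · intro p hp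
    rw [List.mem_ofFn] at hp
    obtain ⟨i, hi⟩ := hp
    rw [← hi]
    exact hQ _ (hf.1 i)

/-- powers with different exponents have disjoint supports -/
lemma ak_disj {Q : Finset ℕ} (hQ : ∀ p ∈ Q, p.Prime) (r : ℕ → ℝ) {j k : ℕ} (h : j ≠ k) (n : ℕ) :
    ak Q r j n * ak Q r k n = 0 := by
  by_contra hne
  have h1 : ak Q r j n ≠ 0 := left_ne_zero_of_mul hne
  have h2 : ak Q r k n ≠ 0 := right_ne_zero_of_mul hne
  unfold ak at h1 h2
  obtain ⟨f, hf, _⟩ := Finset.exists_ne_zero_of_sum_ne_zero h1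
  obtain ⟨g, hg, _⟩ := Finset.exists_ne_zero_of_sum_ne_zero h2
  have l1 := (fin_perm hQ hf).length_eq
  have l2 := (fin_perm hQ hg).length_eq
  rw [List.length_ofFn] at l1 l2
  exact h (l1.trans l2.symm)

lemma sum_abs_ak {Q : Finset ℕ} (r : ℕ → ℝ) (k N : ℕ)
    (hN : ∀ f ∈ Fintype.piFinset (fun _ : Fin k => Q), ∏ i, f i ≤ N) :
    ∑ n ∈ Finset.range (N + 1), |ak Q r k n| / √n ≤ (∑ p ∈ Q, |r p| / √p) ^ k := by
  have h1 : (∑ p ∈ Q, |r p| / √(p : ℝ)) ^ k = ∏ _i : Fin k, ∑ p ∈ Q, |r p| / √(p : ℝ) := by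
    rw [Finset.prod_const, Finset.card_univ, Fintype.card_fin]
  rw [h1, Finset.prod_univ_sum, ← Finset.sum_fiberwise_of_maps_to (s := Fintype.piFinset fun _ : Fin k => Q)
    (t := Finset.range (N + 1)) (g := fun f => ∏ i, f i)
    (fun f hf => Finset.mem_range.2 (Nat.lt_succ_of_le (hN f hf)))]
  refine Finset.sum_le_sum fun n _ => ?_
  unfold ak
  rw [div_eq_mul_inv]
  refine (mul_le_mul_of_nonneg_right (Finset.abs_sum_le_sum_abs _ _) (by positivity)).trans ?_
  rw [Finset.sum_mul]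
  refine Finset.sum_le_sum fun f hf => ?_
  rw [Finset.mem_filter] at hf
  rw [Finset.abs_prod, Finset.prod_div_distrib, ← hf.2, div_eq_mul_inv]
  apply le_of_eq
  congr 2
  push_cast
  rw [Real.sqrt_prod _ fun i _ => Nat.cast_nonneg _]

/-- squarefree part of the diagonal -/
lemma sum_ak_ge {Q : Finset ℕ} (hQ : ∀ p ∈ Q, p.Prime) (r : ℕ → ℝ) (k N : ℕ)
    (hN : ∀ f ∈ Fintype.piFinset (fun _ : Fin k => Q), ∏ i, f i ≤ N) :
    k.factorial * ∑ f ∈ (Fintype.piFinset fun _ : Fin k => Q).filter (fun f => Function.Injective f),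
      ∏ i, (r (f i) ^ 2 / (f i : ℝ)) ≤ ∑ n ∈ Finset.range (N + 1), ak Q r k n * ak Q r k n / n := by
  classical
  rw [← Finset.sum_fiberwise_of_maps_to (s := (Fintype.piFinset fun _ : Fin k => Q).filter (fun f => Function.Injective f))
    (t := Finset.range (N + 1)) (g := fun f => ∏ i, f i)
    (fun f hf => Finset.mem_range.2 (Nat.lt_succ_of_le (hN f (Finset.mem_filter.1 hf).1))), Finset.mul_sum]
  refine Finset.sum_le_sum fun n _ => ?_
  rcases Finset.eq_empty_or_nonempty (((Fintype.piFinset fun _ : Fin k => Q).filter (fun f => Function.Injective f)).filter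
    fun f => ∏ i, f i = n) with h | ⟨g, hg⟩
  · rw [h]
    simp only [Finset.sum_empty, mul_zero]
    exact div_nonneg (mul_self_nonneg _) (Nat.cast_nonneg _)
  · -- all functions of the fiber are permutations of `g`
    rw [Finset.mem_filter, Finset.mem_filter] at hg
    obtain ⟨⟨hgQ, hgi⟩, hgn⟩ := hg
    have hgn' : g ∈ (Fintype.piFinset fun _ : Fin k => Q).filter (fun f => ∏ i, f i = n) := Finset.mem_filter.2 ⟨hgQ, hgn⟩
    have hn0 : 0 < n := hgn ▸ fin_prod_pos hQ hgQ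
    have hnR : (0:ℝ) < n := by exact_mod_cast hn0
    -- the value
    obtain ⟨w, hw⟩ : ∃ w : ℝ, w = ∏ i, r (g i) := ⟨_, rfl⟩
    have hval : ∀ f ∈ (Fintype.piFinset fun _ : Fin k => Q).filter (fun f => ∏ i, f i = n), ∏ i, r (f i) = w := by
      intro f hf
      have hp := (fin_perm hQ hf).trans (fin_perm hQ hgn').symm
      have h1 := (hp.map r).prod_eq
      rw [List.map_ofFn, List.map_ofFn, List.prod_ofFn, List.prod_ofFn] at h1
      rw [hw]
      exact h1
    have hak : ak Q r k n = ((Fintype.piFinset fun _ : Fin k => Q).filter (fun f => ∏ i, f i = n)).card * w := by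
      unfold ak
      rw [Finset.sum_congr rfl hval, Finset.sum_const, nsmul_eq_mul]
    -- the number of functions
    have hcard : k.factorial ≤ ((Fintype.piFinset fun _ : Fin k => Q).filter (fun f => ∏ i, f i = n)).card := by
      have h1 : Fintype.card (Equiv.Perm (Fin k)) = k.factorial := by rw [Fintype.card_perm, Fintype.card_fin]
      rw [← h1, ← Finset.card_univ]
      apply Finset.card_le_card_of_injOn (fun σ : Equiv.Perm (Fin k) => g ∘ σ)
      · intro σ _
        rw [Finset.mem_coe, Finset.mem_filter, Fintype.mem_piFinset]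
        rw [Fintype.mem_piFinset] at hgQ
        refine ⟨fun i => hgQ (σ i), ?_⟩
        rw [← hgn]
        exact Equiv.prod_comp σ g
      · intro σ _ τ _ h2
        apply Equiv.ext
        intro i
        exact hgi (congrFun h2 i)
    have hcard' : (k.factorial : ℝ) ≤ ((Fintype.piFinset fun _ : Fin k => Q).filter (fun f => ∏ i, f i = n)).card := by
      exact_mod_cast hcard
    obtain ⟨c, hc⟩ : ∃ c : ℝ, c = (((Fintype.piFinset fun _ : Fin k => Q).filter (fun f => ∏ i, f i = n)).card : ℝ) := ⟨_, rfl⟩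
    rw [← hc] at hak hcard'
    have hc0 : 0 ≤ c := by rw [hc]; positivity
    -- the sum
    obtain ⟨G, hG⟩ : ∃ G : Finset (Fin k → ℕ), G = ((Fintype.piFinset fun _ : Fin k => Q).filter (fun f => Function.Injective f)).filter
      (fun f => ∏ i, f i = n) := ⟨_, rfl⟩
    have hGsub : ∀ f ∈ G, f ∈ (Fintype.piFinset fun _ : Fin k => Q).filter (fun f => ∏ i, f i = n) := by
      intro f hf
      rw [hG, Finset.mem_filter, Finset.mem_filter] at hf
      exact Finset.mem_filter.2 ⟨hf.1.1, hf.2⟩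
    rw [← hG]
    have hsum : (∑ f ∈ G, ∏ i, (r (f i) ^ 2 / (f i : ℝ))) ≤ c * (w ^ 2 / n) := by
      rw [hc]
      have h1 : ∀ f ∈ G, ∏ i, (r (f i) ^ 2 / (f i : ℝ)) = w ^ 2 / n := by
        intro f hf
        have hf' := hGsub f hf
        have hfn := (Finset.mem_filter.1 hf').2
        rw [Finset.prod_div_distrib, Finset.prod_pow, hval f hf', ← hfn]
        push_cast
        rfl
      rw [Finset.sum_congr rfl h1, Finset.sum_const, nsmul_eq_mul]
      apply mul_le_mul_of_nonneg_right _ (by positivity)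
      exact_mod_cast Finset.card_le_card hGsub
    have hsum0 : 0 ≤ ∑ f ∈ G, ∏ i, (r (f i) ^ 2 / (f i : ℝ)) :=
      Finset.sum_nonneg fun f _ => Finset.prod_nonneg fun i _ => by positivity
    calc (k.factorial : ℝ) * ∑ f ∈ G, ∏ i, (r (f i) ^ 2 / (f i : ℝ)) ≤ c * (c * (w ^ 2 / n)) :=
          mul_le_mul hcard' hsum hsum0 hc0
      _ = ak Q r k n * ak Q r k n / n := by
          rw [hak]
          ring

/-! ### injective functions -/

/-- injective functions with values in `Q` -/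
noncomputable def Inj (Q : Finset ℕ) (k : ℕ) : Finset (Fin k → ℕ) :=
  (Fintype.piFinset fun _ : Fin k => Q).filter (fun f => Function.Injective f)

lemma inj_step {Q : Finset ℕ} {y : ℕ → ℝ} (hy : ∀ p, 0 ≤ y p) {x : ℝ} (hx : ∀ p ∈ Q, y p ≤ x) (k : ℕ) :
    (∑ p ∈ Q, y p - k * x) * ∑ g ∈ Inj Q k, ∏ i, y (g i) ≤ ∑ f ∈ Inj Q (k + 1), ∏ i, y (f i) := by
  classical
  obtain ⟨P, hP⟩ : ∃ P : Finset (ℕ × (Fin k → ℕ)), P = (Q ×ˢ Inj Q k).filter fun z => ∀ i, z.2 i ≠ z.1 := ⟨_, rfl⟩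
  -- from pairs to functions
  have h1 : ∑ z ∈ P, y z.1 * ∏ i, y (z.2 i) ≤ ∑ f ∈ Inj Q (k + 1), ∏ i, y (f i) := by
    have h2 : ∑ z ∈ P, y z.1 * ∏ i, y (z.2 i) = ∑ f ∈ P.image (fun z => (Fin.cons z.1 z.2 : Fin (k + 1) → ℕ)),
        ∏ i, y (f i) := by
      rw [Finset.sum_image]
      · refine Finset.sum_congr rfl fun z _ => ?_
        rw [Fin.prod_univ_succ]
        simp
      · intro z _ w _ hzw
        have h3 := Fin.cons_inj.1 hzw
        exact Prod.ext h3.1 h3.2
    rw [h2]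
    apply Finset.sum_le_sum_of_subset_of_nonneg
    · intro f hf
      rw [Finset.mem_image] at hf
      obtain ⟨z, hz, rfl⟩ := hf
      rw [hP, Finset.mem_filter, Finset.mem_product, Inj, Finset.mem_filter, Fintype.mem_piFinset] at hz
      obtain ⟨⟨hz1, hz2, hz3⟩, hz4⟩ := hz
      rw [Inj, Finset.mem_filter, Fintype.mem_piFinset]
      constructor
      · intro i
        refine Fin.cases ?_ (fun j => ?_) i
        · simpa using hz1
        · simpa using hz2 j
      · rw [Fin.cons_injective_iff]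
        refine ⟨?_, hz3⟩
        rintro ⟨i, hi⟩
        exact hz4 i hi
    · intro f _ _
      exact Finset.prod_nonneg fun i _ => hy _
  refine le_trans ?_ h1
  rw [hP, Finset.sum_filter, Finset.sum_product_right, Finset.mul_sum]
  refine Finset.sum_le_sum fun g hg => ?_
  have hprod : 0 ≤ ∏ i, y (g i) := Finset.prod_nonneg fun i _ => hy _
  have h3 : ∑ a ∈ Q, (if ∀ i, g i ≠ a then y a * ∏ i, y (g i) else 0) =
      (∑ a ∈ Q, if ∀ i, g i ≠ a then y a else 0) * ∏ i, y (g i) := by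
    rw [Finset.sum_mul]
    refine Finset.sum_congr rfl fun a _ => ?_
    split_ifs <;> ring
  show _ ≤ ∑ a ∈ Q, (if ∀ i, g i ≠ a then y a * ∏ i, y (g i) else 0)
  rw [h3]
  apply mul_le_mul_of_nonneg_right _ hprod
  have h4 : ∑ a ∈ Q, y a = (∑ a ∈ Q, if ∀ i, g i ≠ a then y a else 0) + ∑ a ∈ Q, if ∀ i, g i ≠ a then 0 else y a := by
    rw [← Finset.sum_add_distrib]
    refine Finset.sum_congr rfl fun a _ => ?_
    split_ifs <;> ring
  have h5 : (∑ a ∈ Q, if ∀ i, g i ≠ a then 0 else y a) ≤ k * x := by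
    have h6 : (∑ a ∈ Q, if ∀ i, g i ≠ a then 0 else y a) = ∑ a ∈ Q.filter (fun a => ¬ ∀ i, g i ≠ a), y a := by
      rw [Finset.sum_filter]
      refine Finset.sum_congr rfl fun a _ => ?_
      split_ifs <;> rfl
    rw [h6]
    have h7 : Q.filter (fun a => ¬ ∀ i, g i ≠ a) ⊆ Finset.univ.image g := by
      intro a ha
      rw [Finset.mem_filter] at ha
      have := ha.2
      push Not at this
      obtain ⟨i, hi⟩ := this
      exact Finset.mem_image.2 ⟨i, Finset.mem_univ _, hi⟩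
    have h8 : ((Q.filter (fun a => ¬ ∀ i, g i ≠ a)).card : ℝ) ≤ k := by
      have := (Finset.card_le_card h7).trans Finset.card_image_le
      rw [Finset.card_univ, Fintype.card_fin] at this
      exact_mod_cast this
    rcases (Q.filter (fun a => ¬ ∀ i, g i ≠ a)).eq_empty_or_nonempty with h | ⟨b, hb⟩
    · rw [h, Finset.sum_empty]
      rcases Nat.eq_zero_or_pos k with hk | hk
      · subst hk
        simp
      · -- `x ≥ 0`
        rw [Inj, Finset.mem_filter, Fintype.mem_piFinset] at hg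
        have := (hy _).trans (hx _ (hg.1 ⟨0, hk⟩))
        positivity
    · have hx0 : 0 ≤ x := (hy b).trans (hx b (Finset.mem_filter.1 hb).1)
      calc ∑ a ∈ Q.filter (fun a => ¬ ∀ i, g i ≠ a), y a ≤ ∑ _a ∈ Q.filter (fun a => ¬ ∀ i, g i ≠ a), x :=
            Finset.sum_le_sum fun a ha => hx a (Finset.mem_filter.1 ha).1
        _ = (Q.filter (fun a => ¬ ∀ i, g i ≠ a)).card * x := by rw [Finset.sum_const, nsmul_eq_mul]
        _ ≤ k * x := by gcongr
  linarith

lemma inj_sum {Q : Finset ℕ} {y : ℕ → ℝ} (hy : ∀ p, 0 ≤ y p) {x : ℝ} (hx : ∀ p ∈ Q, y p ≤ x) (hx0 : 0 ≤ x) (k : ℕ)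
    (hk : k * x ≤ ∑ p ∈ Q, y p) : (∑ p ∈ Q, y p - k * x) ^ k ≤ ∑ f ∈ Inj Q k, ∏ i, y (f i) := by
  have key : ∀ j : ℕ, j ≤ k → (∑ p ∈ Q, y p - k * x) ^ j ≤ ∑ f ∈ Inj Q j, ∏ i, y (f i) := by
    intro j
    induction j with
    | zero =>
      intro _
      have : Inj Q 0 = Finset.univ := by
        ext f
        simp only [Inj, Finset.mem_filter, Fintype.mem_piFinset, Finset.mem_univ, iff_true]
        exact ⟨fun i => i.elim0, Function.injective_of_subsingleton f⟩
      rw [this]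
      simp
    | succ j ih =>
      intro hj
      have h1 := ih (by omega)
      have h2 := inj_step hy hx j
      have h3 : 0 ≤ ∑ p ∈ Q, y p - k * x := by linarith
      have hjk : (j:ℝ) ≤ k := by exact_mod_cast (by omega : j ≤ k)
      have h4 : ∑ p ∈ Q, y p - k * x ≤ ∑ p ∈ Q, y p - j * x := by
        have : (j:ℝ) * x ≤ k * x := by gcongr
        linarith
      rw [pow_succ, mul_comm]
      refine le_trans (mul_le_mul h4 h1 (by positivity) (by linarith)) h2
  exact key k le_rfl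

/-! ### the moments -/

lemma re_pow (z : ℂ) (m : ℕ) : z.re ^ (2 * m) =
    (1 / 4) ^ m * ∑ j ∈ Finset.range (2 * m + 1), ((2 * m).choose j : ℝ) * (z ^ j * (starRingEnd ℂ) (z ^ (2 * m - j))).re := by
  have h1 : (z + (starRingEnd ℂ) z) ^ (2 * m) = ((2 * z.re : ℝ) : ℂ) ^ (2 * m) := by rw [Complex.add_conj]
  rw [add_pow] at h1
  have h2 := congrArg Complex.re h1
  rw [← Complex.ofReal_pow, Complex.ofReal_re, Complex.re_sum] at h2
  have h3 : ∑ j ∈ Finset.range (2 * m + 1), ((2 * m).choose j : ℝ) * (z ^ j * (starRingEnd ℂ) (z ^ (2 * m - j))).re =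
      (2 * z.re) ^ (2 * m) := by
    rw [← h2]
    refine Finset.sum_congr rfl fun j _ => ?_
    rw [map_pow, mul_comm (z ^ j * (starRingEnd ℂ) z ^ (2 * m - j)) _, ← Complex.ofReal_natCast, Complex.re_ofReal_mul]
  rw [h3, mul_pow, pow_mul 2 2 m, ← mul_assoc, ← mul_pow]
  norm_num

lemma four_choose (m : ℕ) (V : ℝ) : ((2 * m).factorial / (2 ^ m * m.factorial) : ℝ) * (V / 2) ^ m =
    (1 / 4) ^ m * ((2 * m).choose m : ℝ) * (m.factorial * V ^ m) := by
  have h1 : ((2 * m).choose m : ℝ) * m.factorial * m.factorial = (2 * m).factorial := by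
    have := Nat.choose_mul_factorial_mul_factorial (show m ≤ 2 * m by omega)
    rw [show 2 * m - m = m by omega] at this
    exact_mod_cast this
  have hm : (m.factorial : ℝ) ≠ 0 := by positivity
  have h2 : (4:ℝ) ^ m = 2 ^ m * 2 ^ m := by rw [← mul_pow]; norm_num
  rw [← h1, div_pow, div_pow, one_pow, h2]
  field_simp

/-- Moments of the real part of a sum over primes. -/
theorem re_mom : ∃ T₀ : ℝ, ∀ T L : ℝ, T₀ ≤ T → 1 ≤ L → ∀ (Q : Finset ℕ) (r : ℕ → ℝ) (m : ℕ) (x : ℝ),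
    (∀ p ∈ Q, p.Prime ∧ (p : ℝ) ≤ L) → L ^ m ≤ T ^ (1 / 16 : ℝ) → (∀ p ∈ Q, r p ^ 2 / p ≤ x) →
    4 * (m : ℝ) ^ 2 * x ≤ ∑ p ∈ Q, r p ^ 2 / p → 0 < ∑ p ∈ Q, r p ^ 2 / p →
    IntegrableOn (fun t => (DP Q r t).re ^ (2 * m)) (Icc T (2 * T)) ∧
    T / 2 * ((2 * m).factorial / (2 ^ m * m.factorial) : ℝ) * ((∑ p ∈ Q, r p ^ 2 / p) / 2) ^ m ≤
      ∫ t in Icc T (2 * T), (DP Q r t).re ^ (2 * m) ∧
    ∫ t in Icc T (2 * T), (DP Q r t).re ^ (2 * m) ≤
      2 * T * ((2 * m).factorial / (2 ^ m * m.factorial) : ℝ) * ((∑ p ∈ Q, r p ^ 2 / p) / 2) ^ m := by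
  have ev1 : ∀ᶠ T : ℝ in atTop, 8 ≤ T ^ (11 / 16 : ℝ) := (tendsto_rpow_atTop (by norm_num)).eventually_ge_atTop _
  obtain ⟨T0, hT0⟩ := eventually_atTop.mp (ev1.and (eventually_ge_atTop 1))
  refine ⟨T0, fun T L hT hL Q r m x hQ hLm hx h4x hV => ?_⟩
  obtain ⟨f1, f2⟩ := hT0 T hT
  have hTp : 0 < T := by linarith
  have hQ' : ∀ p ∈ Q, p.Prime := fun p hp => (hQ p hp).1
  obtain ⟨V, hVd⟩ : ∃ V : ℝ, V = ∑ p ∈ Q, r p ^ 2 / (p:ℝ) := ⟨_, rfl⟩
  rw [← hVd] at h4x hV ⊢
  -- a prime in `Q`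
  have hne : Q.Nonempty := by
    by_contra h
    rw [Finset.not_nonempty_iff_eq_empty] at h
    rw [h, Finset.sum_empty] at hVd
    linarith
  obtain ⟨p₀, hp₀⟩ := hne
  have hL2 : 2 ≤ L := by
    have h1 : (2:ℝ) ≤ p₀ := by exact_mod_cast (hQ' _ hp₀).two_le
    linarith [(hQ _ hp₀).2]
  have hx0 : 0 ≤ x := le_trans (by positivity) (hx p₀ hp₀)
  have hcont : Continuous fun t => (DP Q r t).re := Complex.continuous_re.comp (Pool.Agent.Helper49.TX.DP_cont Q hQ' r)
  refine ⟨(hcont.pow _).continuousOn.integrableOn_Icc, ?_⟩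
  -- the length
  obtain ⟨N, hN⟩ : ∃ N : ℕ, N = ⌊L ^ (2 * m)⌋₊ := ⟨_, rfl⟩
  have hN1 : 1 ≤ N := by
    rw [hN]
    exact Nat.one_le_floor_iff _ |>.2 (one_le_pow₀ hL)
  have hNL : (N : ℝ) ≤ L ^ (2 * m) := by
    rw [hN]
    exact Nat.floor_le (by positivity)
  have hfN : ∀ j : ℕ, j ≤ 2 * m → ∀ f ∈ Fintype.piFinset (fun _ : Fin j => Q), ∏ i, f i ≤ N := by
    intro j hj f hf
    rw [Fintype.mem_piFinset] at hf
    rw [hN]
    apply Nat.le_floor
    push_cast
    calc ∏ i, (f i : ℝ) ≤ ∏ _i : Fin j, L := Finset.prod_le_prod (fun i _ => Nat.cast_nonneg _) fun i _ => (hQ _ (hf i)).2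
      _ = L ^ j := by rw [Finset.prod_const, Finset.card_univ, Fintype.card_fin]
      _ ≤ L ^ (2 * m) := pow_le_pow_right₀ hL hj
  have hPo : ∀ j : ℕ, j ≤ 2 * m → ∀ t, DP Q r t ^ j = Po N (ak Q r j) t := fun j hj t => DP_pow Q r j N (hfN j hj) t
  -- the sum of the absolute values
  obtain ⟨S, hS⟩ : ∃ S : ℝ, S = ∑ p ∈ Q, |r p| / √(p:ℝ) := ⟨_, rfl⟩
  have hS0 : 0 ≤ S := by rw [hS]; exact Finset.sum_nonneg fun p _ => by positivity
  have hcardQ : (Q.card : ℝ) ≤ L := by
    have h1 : Q ⊆ Finset.Icc 1 ⌊L⌋₊ := by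
      intro p hp
      rw [Finset.mem_Icc]
      exact ⟨(hQ' p hp).one_lt.le, Nat.le_floor (hQ p hp).2⟩
    have h2 := Finset.card_le_card h1
    rw [Nat.card_Icc, Nat.add_sub_cancel] at h2
    calc (Q.card : ℝ) ≤ ⌊L⌋₊ := by exact_mod_cast h2
      _ ≤ L := Nat.floor_le (by linarith)
  have hS2 : S ^ 2 ≤ L * V := by
    have h1 : S ^ 2 ≤ Q.card * ∑ p ∈ Q, (|r p| / √(p:ℝ)) ^ 2 := by
      rw [hS]
      exact sq_sum_le_card_mul_sum_sq
    have h2 : ∑ p ∈ Q, (|r p| / √(p:ℝ)) ^ 2 = V := by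
      rw [hVd]
      refine Finset.sum_congr rfl fun p _ => ?_
      rw [div_pow, sq_abs, Real.sq_sqrt (Nat.cast_nonneg _)]
    rw [h2] at h1
    exact h1.trans (mul_le_mul_of_nonneg_right hcardQ hV.le)
  obtain ⟨R, hR⟩ : ∃ R : ℝ, R = T ^ (1 / 16 : ℝ) := ⟨_, rfl⟩
  have hR0 : 0 < R := by rw [hR]; positivity
  have hLm0 : 0 ≤ L ^ m := by positivity
  have herr : 2 * (N:ℝ) * S ^ (2 * m) ≤ 2 * R ^ 3 * V ^ m := by
    have h1 : S ^ (2 * m) ≤ (L * V) ^ m := by
      rw [pow_mul]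
      exact pow_le_pow_left₀ (sq_nonneg _) hS2 m
    have h2 : (N:ℝ) ≤ (L ^ m) ^ 2 := by
      refine hNL.trans (le_of_eq ?_)
      rw [← pow_mul]
      ring_nf
    rw [hR]
    calc 2 * (N:ℝ) * S ^ (2 * m) ≤ 2 * (L ^ m) ^ 2 * (L * V) ^ m := by gcongr
      _ = 2 * (L ^ m) ^ 3 * V ^ m := by rw [mul_pow]; ring
      _ ≤ 2 * (T ^ (1 / 16 : ℝ)) ^ 3 * V ^ m := by gcongr
  -- one term
  have hterm : ∀ j ∈ Finset.range (2 * m + 1),
      |(∫ t in T..(2 * T), (DP Q r t ^ j * (starRingEnd ℂ) (DP Q r t ^ (2 * m - j))).re) -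
        T * ∑ n ∈ Finset.range (N + 1), ak Q r j n * ak Q r (2 * m - j) n / n| ≤ 2 * N * S ^ (2 * m) := by
    intro j hj
    rw [Finset.mem_range] at hj
    have h1 := mean_mul hN1 (ak_zero hQ' r j) (ak_zero hQ' r (2 * m - j)) T (2 * T)
    rw [show 2 * T - T = T by ring] at h1
    simp_rw [hPo j (by omega), hPo (2 * m - j) (by omega)]
    refine h1.trans ?_
    have h2 := sum_abs_ak (Q := Q) r j N (hfN j (by omega))
    have h3 := sum_abs_ak (Q := Q) r (2 * m - j) N (hfN _ (by omega))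
    rw [← hS] at h2 h3
    have h4 : 0 ≤ ∑ n ∈ Finset.range (N + 1), |ak Q r (2 * m - j) n| / √(n:ℝ) := Finset.sum_nonneg fun n _ => by positivity
    have h5 : S ^ (2 * m) = S ^ j * S ^ (2 * m - j) := by
      rw [← pow_add]
      congr 1
      omega
    rw [h5]
    apply mul_le_mul_of_nonneg_left _ (by positivity)
    exact mul_le_mul h2 h3 h4 (by positivity)
  -- the diagonal
  obtain ⟨D, hD⟩ : ∃ D : ℝ, D = ∑ n ∈ Finset.range (N + 1), ak Q r m n * ak Q r m n / n := ⟨_, rfl⟩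
  have hdiag : ∀ j ∈ Finset.range (2 * m + 1), ((2 * m).choose j : ℝ) *
      (T * ∑ n ∈ Finset.range (N + 1), ak Q r j n * ak Q r (2 * m - j) n / n) =
        if j = m then ((2 * m).choose m : ℝ) * (T * D) else 0 := by
    intro j hj
    rw [Finset.mem_range] at hj
    split_ifs with h
    · subst h
      rw [hD, show 2 * j - j = j by omega]
    · have h1 : ∑ n ∈ Finset.range (N + 1), ak Q r j n * ak Q r (2 * m - j) n / (n:ℝ) = 0 := by
        apply Finset.sum_eq_zero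
        intro n _
        rw [ak_disj hQ' r (by omega) n, zero_div]
      rw [h1, mul_zero, mul_zero]
  have hmain : |(∫ t in Icc T (2 * T), (DP Q r t).re ^ (2 * m)) - (1 / 4) ^ m * (((2 * m).choose m : ℝ) * (T * D))| ≤
      2 * R ^ 3 * V ^ m := by
    have h1 : ∫ t in Icc T (2 * T), (DP Q r t).re ^ (2 * m) = (1 / 4) ^ m * ∑ j ∈ Finset.range (2 * m + 1),
        ((2 * m).choose j : ℝ) * ∫ t in T..(2 * T), (DP Q r t ^ j * (starRingEnd ℂ) (DP Q r t ^ (2 * m - j))).re := by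
      rw [integral_Icc_eq_integral_Ioc, ← intervalIntegral.integral_of_le (by linarith)]
      simp_rw [re_pow]
      rw [intervalIntegral.integral_const_mul, intervalIntegral.integral_finsetSum]
      · congr 1
        refine Finset.sum_congr rfl fun j _ => ?_
        rw [intervalIntegral.integral_const_mul]
      · intro j _
        apply Continuous.intervalIntegrable
        have hc := Pool.Agent.Helper49.TX.DP_cont Q hQ' r
        exact continuous_const.mul (Complex.continuous_re.comp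
          ((hc.pow _).mul (Complex.continuous_conj.comp (hc.pow _))))
    have h2 : (1 / 4 : ℝ) ^ m * (((2 * m).choose m : ℝ) * (T * D)) = (1 / 4) ^ m * ∑ j ∈ Finset.range (2 * m + 1),
        ((2 * m).choose j : ℝ) * (T * ∑ n ∈ Finset.range (N + 1), ak Q r j n * ak Q r (2 * m - j) n / n) := by
      rw [Finset.sum_congr rfl hdiag, Finset.sum_ite_eq', if_pos (Finset.mem_range.2 (by omega))]
    rw [h1, h2, ← mul_sub, ← Finset.sum_sub_distrib, abs_mul, abs_of_nonneg (by positivity : (0:ℝ) ≤ (1 / 4) ^ m)]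
    have h3 : |∑ j ∈ Finset.range (2 * m + 1), (((2 * m).choose j : ℝ) *
        (∫ t in T..(2 * T), (DP Q r t ^ j * (starRingEnd ℂ) (DP Q r t ^ (2 * m - j))).re) -
        ((2 * m).choose j : ℝ) * (T * ∑ n ∈ Finset.range (N + 1), ak Q r j n * ak Q r (2 * m - j) n / n))| ≤
        4 ^ m * (2 * N * S ^ (2 * m)) := by
      refine (Finset.abs_sum_le_sum_abs _ _).trans ?_
      have h4 : ∀ j ∈ Finset.range (2 * m + 1), |(((2 * m).choose j : ℝ) *
          (∫ t in T..(2 * T), (DP Q r t ^ j * (starRingEnd ℂ) (DP Q r t ^ (2 * m - j))).re) -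
          ((2 * m).choose j : ℝ) * (T * ∑ n ∈ Finset.range (N + 1), ak Q r j n * ak Q r (2 * m - j) n / n))| ≤
          ((2 * m).choose j : ℝ) * (2 * N * S ^ (2 * m)) := by
        intro j hj
        rw [← mul_sub, abs_mul, abs_of_nonneg (Nat.cast_nonneg _)]
        exact mul_le_mul_of_nonneg_left (hterm j hj) (Nat.cast_nonneg _)
      refine (Finset.sum_le_sum h4).trans (le_of_eq ?_)
      rw [← Finset.sum_mul]
      congr 1
      have h5 := Nat.sum_range_choose (2 * m)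
      have h6 : (2:ℝ) ^ (2 * m) = 4 ^ m := by rw [pow_mul]; norm_num
      rw [← h6]
      exact_mod_cast h5
    calc (1 / 4 : ℝ) ^ m * |∑ j ∈ Finset.range (2 * m + 1), (((2 * m).choose j : ℝ) *
        (∫ t in T..(2 * T), (DP Q r t ^ j * (starRingEnd ℂ) (DP Q r t ^ (2 * m - j))).re) -
        ((2 * m).choose j : ℝ) * (T * ∑ n ∈ Finset.range (N + 1), ak Q r j n * ak Q r (2 * m - j) n / n))| ≤
        (1 / 4) ^ m * (4 ^ m * (2 * N * S ^ (2 * m))) := by gcongr
      _ = 2 * N * S ^ (2 * m) := by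
        rw [← mul_assoc, ← mul_pow]
        norm_num
      _ ≤ _ := herr
  -- size of the diagonal
  have hDup : D ≤ m.factorial * V ^ m := by
    have h1 := Pool.Agent.Helper49.TX.sum_ak Q hQ' r m N (hfN m (by omega))
    rw [← hVd] at h1
    rw [hD]
    simpa only [pow_two] using h1
  have hmx : (m:ℝ) * x ≤ V := by
    rcases Nat.eq_zero_or_pos m with h | h
    · subst h
      simp
      exact hV.le
    · have h1 : (1:ℝ) ≤ m := by exact_mod_cast h
      nlinarith [mul_nonneg (by linarith : (0:ℝ) ≤ m) hx0]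
  have hDlo : 3 / 4 * (m.factorial * V ^ m) ≤ D := by
    have h1 := sum_ak_ge hQ' r m N (hfN m (by omega))
    rw [← hD] at h1
    have h2 := inj_sum (Q := Q) (y := fun p => r p ^ 2 / (p:ℝ)) (fun p => by positivity) hx hx0 m (by rw [← hVd]; exact hmx)
    rw [← hVd] at h2
    have h3 : 3 / 4 * V ^ m ≤ (V - m * x) ^ m := by
      have e1 : V - m * x = V * (1 + -(m * x / V)) := by field_simp; ring
      have e2 : m * x / V ≤ 1 := by rw [div_le_one hV]; exact hmx
      have e3 : 0 ≤ m * x / V := by positivity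
      have e4 := one_add_mul_le_pow (show (-2:ℝ) ≤ -(m * x / V) by linarith) m
      have e5 : (m:ℝ) * (m * x / V) ≤ 1 / 4 := by
        rw [← mul_div_assoc, div_le_iff₀ hV]
        nlinarith
      rw [e1, mul_pow, mul_comm]
      apply mul_le_mul_of_nonneg_left _ (by positivity)
      linarith
    calc 3 / 4 * (m.factorial * V ^ m) = m.factorial * (3 / 4 * V ^ m) := by ring
      _ ≤ m.factorial * ∑ f ∈ Inj Q m, ∏ i, (r (f i) ^ 2 / (f i : ℝ)) := by
        apply mul_le_mul_of_nonneg_left _ (by positivity)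
        exact h3.trans h2
      _ ≤ D := h1
  -- the error is small
  obtain ⟨G, hG⟩ : ∃ G : ℝ, G = ((2 * m).factorial / (2 ^ m * m.factorial) : ℝ) * (V / 2) ^ m := ⟨_, rfl⟩
  have hG2 : G = (1 / 4) ^ m * ((2 * m).choose m : ℝ) * (m.factorial * V ^ m) := by rw [hG, four_choose]
  have hch : (1:ℝ) ≤ ((2 * m).choose m : ℝ) := by
    exact_mod_cast Nat.choose_pos (show m ≤ 2 * m by omega)
  have hfac : (1:ℝ) ≤ (m.factorial : ℝ) := by exact_mod_cast m.factorial_pos
  have hVm : 0 < V ^ m := by positivity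
  have hGlo : (1 / 4) ^ m * V ^ m ≤ G := by
    rw [hG2]
    calc (1 / 4 : ℝ) ^ m * V ^ m = (1 / 4) ^ m * 1 * (1 * V ^ m) := by ring
      _ ≤ _ := by gcongr
  have hsmall : 2 * R ^ 3 * V ^ m ≤ T / 4 * G := by
    have h1 : (4:ℝ) ^ m ≤ R ^ 2 := by
      rw [hR]
      calc (4:ℝ) ^ m = (2 ^ m) ^ 2 := by rw [← pow_mul, mul_comm m 2, pow_mul]; norm_num
        _ ≤ (L ^ m) ^ 2 := by gcongr
        _ ≤ _ := by gcongr
    have h2 : 8 * R ^ 5 ≤ T := by
      have e1 : R ^ 5 = T ^ (5 / 16 : ℝ) := by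
        rw [hR, ← Real.rpow_natCast, ← Real.rpow_mul hTp.le]
        norm_num
      rw [e1]
      calc 8 * T ^ (5 / 16 : ℝ) ≤ T ^ (11 / 16 : ℝ) * T ^ (5 / 16 : ℝ) := by gcongr
        _ = T := by rw [← Real.rpow_add hTp]; norm_num
    have h3 : (1:ℝ) = (4:ℝ) ^ m * (1 / 4) ^ m := by rw [← mul_pow]; norm_num
    calc 2 * R ^ 3 * V ^ m = 2 * R ^ 3 * (4 ^ m * ((1 / 4) ^ m * V ^ m)) := by rw [← mul_assoc (4 ^ m), ← h3, one_mul]
      _ ≤ 2 * R ^ 3 * (R ^ 2 * G) := by gcongr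
      _ = (8 * R ^ 5) / 4 * G := by ring
      _ ≤ T / 4 * G := by
        apply mul_le_mul_of_nonneg_right _ (le_trans (by positivity) hGlo)
        linarith
  have hup : (1 / 4) ^ m * (((2 * m).choose m : ℝ) * (T * D)) ≤ T * G := by
    rw [hG2]
    calc (1 / 4 : ℝ) ^ m * (((2 * m).choose m : ℝ) * (T * D)) ≤
        (1 / 4) ^ m * (((2 * m).choose m : ℝ) * (T * (m.factorial * V ^ m))) := by gcongr
      _ = _ := by ring
  have hlo : 3 / 4 * (T * G) ≤ (1 / 4) ^ m * (((2 * m).choose m : ℝ) * (T * D)) := by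
    rw [hG2]
    calc 3 / 4 * (T * ((1 / 4) ^ m * ((2 * m).choose m : ℝ) * (m.factorial * V ^ m))) =
        (1 / 4) ^ m * (((2 * m).choose m : ℝ) * (T * (3 / 4 * (m.factorial * V ^ m)))) := by ring
      _ ≤ _ := by gcongr
  rw [abs_le] at hmain
  have hTG : 0 ≤ T * G := mul_nonneg hTp.le (le_trans (by positivity) hGlo)
  constructor
  · calc T / 2 * ((2 * m).factorial / (2 ^ m * m.factorial) : ℝ) * (V / 2) ^ m = T / 2 * G := by rw [hG]; ring
      _ ≤ _ := by linarith [hmain.1]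
  · calc ∫ t in Icc T (2 * T), (DP Q r t).re ^ (2 * m) ≤ 2 * (T * G) := by linarith [hmain.2]
      _ = _ := by rw [hG]; ring

end Pool.Agent.Helper49.NRS
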